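import Pool.Agent.Helper15.BP.Slope

/-!
# From sets to regular families and back

`piece A V x` is `A ∩ (x + V)`, seen inside `V`.  The piece which maximises
`log density - κ log [G : V + 2G]` is regular: the uniform family on it has slopes at most `κ`.
Conversely a family of deficiency less than `log 2` covers more than half of the group.
-/

set_option autoImplicit false

namespace Pool.Agent.Helper25.BP

open Finset Pool.Agent.Helper15.BP

/-- `A ∩ (x + V)`, seen inside `V` -/
def piece {G : Type} [AddCommGroup G] (A : Set G) (V : AddSubgroup G) (x : G) : Set V :=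
  {v : V | x + (v : G) ∈ A}

theorem index_pos {G : Type} [AddCommGroup G] [Finite G] (S : AddSubgroup G) :
    (0 : ℝ) < S.index := by
  have := AddSubgroup.index_ne_zero_of_finite (H := S)
  exact_mod_cast Nat.pos_of_ne_zero this

/-- rank subadditivity -/
theorem index_sub {G : Type} [AddCommGroup G] [Finite G] (V : AddSubgroup G)
    (K : AddSubgroup V) :
    Real.log (K.map V.subtype ⊔ dbl G).index ≤
      Real.log (K ⊔ dbl V).index + Real.log (V ⊔ dbl G).index := by
  set S := K.map V.subtype ⊔ dbl G with hS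
  have hKV : K.map V.subtype ≤ V := by
    rintro g ⟨v, -, rfl⟩
    exact v.2
  have h1 : S.relIndex (S ⊔ V) * (S ⊔ V).index = S.index :=
    AddSubgroup.relIndex_mul_index le_sup_left
  have h2 : S.relIndex (S ⊔ V) = S.relIndex V := AddSubgroup.relIndex_sup_left V S
  have h3 : S ⊔ V = V ⊔ dbl G := by
    rw [hS]
    apply le_antisymm
    · exact sup_le (sup_le (hKV.trans le_sup_left) le_sup_right) le_sup_left
    · exact sup_le le_sup_right (le_sup_right.trans le_sup_left)
  have h4 : K ⊔ dbl V ≤ S.addSubgroupOf V := by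
    refine sup_le ?_ ?_
    · intro v hv
      rw [AddSubgroup.mem_addSubgroupOf]
      exact (le_sup_left : K.map V.subtype ≤ S) ⟨v, hv, rfl⟩
    · intro v hv
      rw [mem_dbl] at hv
      obtain ⟨y, rfl⟩ := hv
      rw [AddSubgroup.mem_addSubgroupOf]
      refine (le_sup_right : dbl G ≤ S) ?_
      rw [mem_dbl]
      exact ⟨(y : G), by push_cast; rfl⟩
  have h5 : (S.addSubgroupOf V).index ≤ (K ⊔ dbl V).index := AddSubgroup.index_antitone h4
  rw [h2, h3] at h1
  have h6 : (S.index : ℝ) ≤ (K ⊔ dbl V).index * (V ⊔ dbl G).index := by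
    rw [← h1]
    push_cast
    refine mul_le_mul_of_nonneg_right ?_ (by positivity)
    exact_mod_cast h5
  have h7 := Real.log_le_log (index_pos S) h6
  rwa [Real.log_mul (index_pos _).ne' (index_pos _).ne'] at h7

theorem exists_regular {G : Type} [AddCommGroup G] [Finite G] (A : Set G) (hA : A.Nonempty)
    (t : ℝ) :
    ∃ (V : AddSubgroup G) (x : G), (piece A V x).Nonempty ∧
      t * Real.log (V ⊔ dbl G).index ≤ (Real.log (Nat.card G) - Real.log A.ncard) -
        (Real.log (Nat.card V) - Real.log (piece A V x).ncard) ∧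
      ∀ (K : AddSubgroup V) (y : V),
        (({v : V | v ∈ piece A V x ∧ v - y ∈ K}).ncard : ℝ) * K.index ≤
          (piece A V x).ncard * Real.exp (t * (Real.log (K.map V.subtype ⊔ dbl G).index -
            Real.log (V ⊔ dbl G).index)) := by
  classical
  set F : AddSubgroup G × G → ℝ := fun p =>
    ((piece A p.1 p.2).ncard : ℝ) / Nat.card p.1 *
      Real.exp (-(t * Real.log (p.1 ⊔ dbl G).index)) with hF
  obtain ⟨⟨V, x⟩, hmax⟩ := Finite.exists_max F
  have hcG : (0 : ℝ) < Nat.card G := by exact_mod_cast Nat.card_pos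
  have hcard : ∀ S : AddSubgroup G, (0 : ℝ) < Nat.card S := fun S => by
    exact_mod_cast Nat.card_pos
  have hA1 : (0 : ℝ) < A.ncard := by
    exact_mod_cast (Set.ncard_pos (Set.toFinite _)).2 hA
  -- compare with the whole group
  have htop : F (⊤, 0) = (A.ncard : ℝ) / Nat.card G := by
    have h1 : (piece A (⊤ : AddSubgroup G) 0).ncard = A.ncard := by
      have h2 : (Subtype.val '' (piece A (⊤ : AddSubgroup G) 0)) = A := by
        ext g
        constructor
        · rintro ⟨v, hv, rfl⟩
          have : (0 : G) + (v : G) ∈ A := hv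
          rwa [zero_add] at this
        · intro hg
          exact ⟨⟨g, AddSubgroup.mem_top g⟩, by
            show (0 : G) + g ∈ A
            rwa [zero_add], rfl⟩
      rw [← Set.ncard_image_of_injective _ (Subtype.val_injective
        (p := fun g => g ∈ (⊤ : AddSubgroup G))), h2]
    have h3 : Nat.card (⊤ : AddSubgroup G) = Nat.card G := AddSubgroup.card_top
    simp only [hF]
    rw [h1, h3, top_sup_eq, AddSubgroup.index_top]
    simp
  have h0 : F (⊤, 0) ≤ F (V, x) := hmax (⊤, 0)
  rw [htop] at h0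
  have hpos : 0 < F (V, x) := lt_of_lt_of_le (by positivity) h0
  have hB : 0 < ((piece A V x).ncard : ℝ) := by
    by_contra h
    have h1 : ((piece A V x).ncard : ℝ) = 0 := le_antisymm (not_lt.1 h) (Nat.cast_nonneg _)
    simp only [hF] at hpos
    rw [h1] at hpos
    simp at hpos
  refine ⟨V, x, ?_, ?_, ?_⟩
  · exact (Set.ncard_pos (Set.toFinite _)).1 (by exact_mod_cast hB)
  · have h1 := Real.log_le_log (by positivity) h0
    simp only [hF] at h1
    rw [Real.log_div hA1.ne' hcG.ne', Real.log_mul (by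
      have := hcard V
      positivity) (Real.exp_pos _).ne', Real.log_exp,
      Real.log_div hB.ne' (hcard V).ne'] at h1
    linarith
  · intro K y
    have hKidx := index_pos K
    have h1 : F (K.map V.subtype, x + y) ≤ F (V, x) := hmax _
    simp only [hF] at h1
    -- cardinality of the image of K
    have hc : Nat.card (K.map V.subtype) = Nat.card K :=
      Nat.card_congr (K.equivMapOfInjective V.subtype V.subtype_injective).symm.toEquiv
    have hmemV : ∀ k : K.map V.subtype, (k : G) ∈ V := by
      rintro ⟨k, v, -, rfl⟩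
      exact v.2
    have hmemK : ∀ k : K.map V.subtype, (⟨(k : G), hmemV k⟩ : V) ∈ K := by
      rintro ⟨k, v, hv, rfl⟩
      exact hv
    have hn : (piece A (K.map V.subtype) (x + y)).ncard =
        ({v : V | v ∈ piece A V x ∧ v - y ∈ K}).ncard := by
      refine Set.ncard_congr (fun k _ => y + ⟨(k : G), hmemV k⟩) ?_ ?_ ?_
      · intro k hk
        constructor
        · show x + ((y : G) + (k : G)) ∈ A
          rw [← add_assoc]
          exact hk
        · rw [add_sub_cancel_left]
          exact hmemK k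
      · intro k k' _ _ h
        have h2 := add_left_cancel h
        have h3 := congrArg (fun z : V => (z : G)) h2
        exact Subtype.ext h3
      · intro v hv
        refine ⟨⟨((v - y : V) : G), ⟨v - y, hv.2, rfl⟩⟩, ?_, ?_⟩
        · show x + (y : G) + ((v - y : V) : G) ∈ A
          have h2 : x + (y : G) + ((v - y : V) : G) = x + (v : G) := by
            push_cast
            abel
          rw [h2]
          exact hv.1
        · refine Subtype.ext ?_
          show (y : G) + ((v - y : V) : G) = v
          push_cast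
          abel
    rw [hn, hc] at h1
    have hK : (0 : ℝ) < Nat.card K := by exact_mod_cast Nat.card_pos
    have h3 : (Nat.card V : ℝ) = Nat.card K * K.index := by
      exact_mod_cast (AddSubgroup.card_mul_index K).symm
    rw [h3] at h1
    set n := (({v : V | v ∈ piece A V x ∧ v - y ∈ K}).ncard : ℝ)
    set b := ((piece A V x).ncard : ℝ)
    set a := Real.log (K.map V.subtype ⊔ dbl G).index
    set c := Real.log (V ⊔ dbl G).index
    have h4 : Real.exp (-(t * c)) = Real.exp (-(t * a)) * Real.exp (t * (a - c)) := by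
      rw [← Real.exp_add]; congr 1; ring
    rw [h4] at h1
    have h5 : b / (Nat.card K * K.index) * (Real.exp (-(t * a)) * Real.exp (t * (a - c))) =
        (b / (Nat.card K * K.index) * Real.exp (t * (a - c))) * Real.exp (-(t * a)) := by ring
    rw [h5] at h1
    have h6 := le_of_mul_le_mul_right h1 (Real.exp_pos _)
    have h7 : n * K.index = (n / Nat.card K) * (Nat.card K * K.index) := by
      field_simp
    rw [h7]
    have h8 := mul_le_mul_of_nonneg_right h6 (show (0 : ℝ) ≤ Nat.card K * K.index by positivity)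
    refine h8.trans (le_of_eq ?_)
    field_simp

/-! ### The uniform family -/

theorem pr_const {Ω α : Type*} [Fintype Ω] (c : ℝ) (f : Ω → α) (a : α) :
    pr (fun _ : Ω => c) f a = (({o : Ω | f o = a}).ncard : ℝ) * c := by
  classical
  have h1 : pr (fun _ : Ω => c) f a = ∑ o, if f o = a then c else 0 := by
    unfold pr
    exact Finset.sum_congr rfl fun o _ => by congr
  rw [h1, ← Finset.sum_filter, Finset.sum_const, nsmul_eq_mul]
  congr 2
  rw [← Set.ncard_coe_finset]
  congr 1
  ext o
  simp

theorem isPr_const {G : Type} [Finite G] (B : Set G) (hB : B.Nonempty) [Fintype B] :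
    IsPr (fun _ : B => 1 / (B.ncard : ℝ)) := by
  refine ⟨fun _ => by positivity, ?_⟩
  have h1 : (0 : ℝ) < B.ncard := by
    exact_mod_cast (Set.ncard_pos (Set.toFinite _)).2 hB
  rw [Finset.sum_const, nsmul_eq_mul, Finset.card_univ]
  have h2 : Fintype.card B = B.ncard := by
    rw [← Nat.card_coe_set_eq, Nat.card_eq_fintype_card]
  rw [h2]
  field_simp

/-- the uniform family on a nonempty set -/
noncomputable def unif {G : Type} [Finite G] (B : Set G) (hB : B.Nonempty) : Fam G :=
  letI : Fintype B := Fintype.ofFinite _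
  { Ω := B
    ι := Unit
    fin := inferInstance
    w := fun _ => 1 / (B.ncard : ℝ)
    hw := isPr_const B hB
    J := fun _ => ()
    Y := fun b => b }

theorem unif_D {G : Type} [AddCommGroup G] [Finite G] (B : Set G) (hB : B.Nonempty) (E : ℝ)
    (H : AddSubgroup G)
    (h : ∀ y : G, (({v : G | v ∈ B ∧ v - y ∈ H}).ncard : ℝ) * H.index ≤
      B.ncard * Real.exp E) :
    (unif B hB).D H ≤ E := by
  classical
  let _ : Fintype B := Fintype.ofFinite _
  have hB1 : (0 : ℝ) < B.ncard := by
    exact_mod_cast (Set.ncard_pos (Set.toFinite _)).2 hB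
  have hidx := index_pos H
  have hw := isPr_const B hB
  set w : B → ℝ := fun _ => 1 / (B.ncard : ℝ) with hwdef
  set f : B → Unit × (G ⧸ H) := fun o => ((), (QuotientAddGroup.mk (o : G) : G ⧸ H)) with hf
  have hD : (unif B hB).D H = Real.log H.index - (Ent w f - Ent w (fun _ : B => ())) := rfl
  rw [hD, Ent_const hw (), sub_zero]
  -- lower bound for the entropy
  have h1 : Real.log H.index - E ≤ Ent w f := by
    unfold Ent
    have h2 : ∀ o : B, w o * (Real.log H.index - E) ≤ w o * (-Real.log (pr w f (f o))) := by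
      intro o
      have hwo : 0 < w o := by
        show 0 < 1 / (B.ncard : ℝ)
        positivity
      refine mul_le_mul_of_nonneg_left ?_ hwo.le
      have h3 : pr w f (f o) = (({v : G | v ∈ B ∧ v - o ∈ H}).ncard : ℝ) / B.ncard := by
        rw [hwdef, pr_const, mul_one_div]
        congr 2
        have h7 : (Subtype.val '' ({x : B | f x = f o})) = {v : G | v ∈ B ∧ v - o ∈ H} := by
          ext g
          constructor
          · rintro ⟨v, hv, rfl⟩
            have h8 := congrArg Prod.snd (show f v = f o from hv)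
            exact ⟨v.2, (Fam.mk_eq_iff H _ _).1 h8⟩
          · rintro ⟨hg1, hg2⟩
            refine ⟨⟨g, hg1⟩, ?_, rfl⟩
            exact Prod.ext rfl ((Fam.mk_eq_iff H _ _).2 hg2)
        rw [← h7, Set.ncard_image_of_injective _ Subtype.val_injective]
      have h10 : 0 < pr w f (f o) := pr_pos hw f hwo
      have h9 : pr w f (f o) ≤ Real.exp E / H.index := by
        rw [h3, div_le_div_iff₀ hB1 hidx]
        linarith [h o]
      have h11 := Real.log_le_log h10 h9
      rw [Real.log_div (Real.exp_pos _).ne' hidx.ne', Real.log_exp] at h11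
      linarith
    have h3 := Finset.sum_le_sum fun o (_ : o ∈ (Finset.univ : Finset B)) => h2 o
    rw [← Finset.sum_mul, hw.sum_one, one_mul] at h3
    exact h3
  linarith

/-- deficiency of the uniform family at the trivial subgroup -/
theorem unif_D_bot {G : Type} [AddCommGroup G] [Finite G] (B : Set G) (hB : B.Nonempty) :
    (unif B hB).D ⊥ ≤ Real.log (Nat.card G) - Real.log B.ncard := by
  have hB1 : (0 : ℝ) < B.ncard := by
    exact_mod_cast (Set.ncard_pos (Set.toFinite _)).2 hB
  have hcG : (0 : ℝ) < Nat.card G := by exact_mod_cast Nat.card_pos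
  refine unif_D B hB _ ⊥ fun y => ?_
  rw [AddSubgroup.index_bot]
  have h3 : ({v : G | v ∈ B ∧ v - y ∈ (⊥ : AddSubgroup G)}).ncard ≤ 1 := by
    rw [Set.ncard_le_one (Set.toFinite _)]
    intro a ha b hb
    have h4 := AddSubgroup.mem_bot.1 ha.2
    have h5 := AddSubgroup.mem_bot.1 hb.2
    rw [sub_eq_zero] at h4 h5
    rw [h4, h5]
  rw [Real.exp_sub, Real.exp_log hcG, Real.exp_log hB1]
  have h6 : (({v : G | v ∈ B ∧ v - y ∈ (⊥ : AddSubgroup G)}).ncard : ℝ) ≤ 1 := by
    exact_mod_cast h3
  have h7 : (B.ncard : ℝ) * ((Nat.card G : ℝ) / B.ncard) = Nat.card G := by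
    field_simp
  rw [h7]
  nlinarith

/-- **Regularisation.** -/
theorem reg {G : Type} [AddCommGroup G] [Finite G] [DecidableEq G] (A : Finset G)
    (hA : A.Nonempty) (κ : ℝ) (hκ : 0 < κ) :
    ∃ (V : AddSubgroup G) (x : G) (B : Fam V), Slope B κ ∧
      B.D ⊥ + κ * Real.log (V ⊔ dbl G).index ≤ Real.log (Nat.card G) - Real.log A.card ∧
      (∀ o, x + (B.Y o : G) ∈ A) := by
  obtain ⟨V, x, hne, h1, h2⟩ := exists_regular (A : Set G) (by exact_mod_cast hA) κ
  refine ⟨V, x, unif (piece (A : Set G) V x) hne, ?_, ?_, fun o => o.2⟩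
  · intro H
    refine (unif_D _ hne _ H (h2 H)).trans ?_
    refine mul_le_mul_of_nonneg_left ?_ hκ.le
    linarith [index_sub V H]
  · have h3 := unif_D_bot (piece (A : Set G) V x) hne
    rw [Set.ncard_coe_finset] at h1
    linarith

/-! ### Back to sets -/

/-- a family of small deficiency has a large range -/
theorem card_range {G : Type} [AddCommGroup G] [Finite G] (X : Fam G) (P : Set G)
    (hP : ∀ o, X.Y o ∈ P) :
    Real.log (Nat.card G) - X.D ⊥ ≤ Real.log P.ncard := by
  have h1 := Ent_le_add_log X.hw X.Y X.J P.ncard (fun o => by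
    refine Set.ncard_le_ncard ?_ (Set.toFinite _)
    rintro a ⟨o', -, rfl⟩
    exact hP o')
  have h2 := X.D_bot
  have h3 : Ent X.w (fun o => (X.Y o, X.J o)) = Ent X.w (fun o => (X.J o, X.Y o)) := by
    refine Ent_congr fun o o' => ?_
    simp only [Prod.mk.injEq]
    tauto
  rw [h3] at h1
  rw [h2]
  linarith

theorem half_of_D {G : Type} [AddCommGroup G] [Finite G] (X : Fam G) (P : Set G)
    (hP : ∀ o, X.Y o ∈ P) (hX : X.D ⊥ < Real.log 2) : (Nat.card G : ℝ) < 2 * P.ncard := by
  have h1 := card_range X P hP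
  have hcG : (0 : ℝ) < Nat.card G := by exact_mod_cast Nat.card_pos
  have hne : P.Nonempty := by
    by_contra h
    rw [Set.not_nonempty_iff_eq_empty] at h
    have : IsEmpty X.Ω := ⟨fun o => by
      have := hP o
      rw [h] at this
      exact this⟩
    have := X.hw.sum_one
    simp at this
  have hP0 : (0 : ℝ) < P.ncard := by
    exact_mod_cast (Set.ncard_pos (Set.toFinite _)).2 hne
  have h2 : Real.log (Nat.card G) < Real.log (2 * P.ncard) := by
    rw [Real.log_mul two_ne_zero hP0.ne']
    linarith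
  exact (Real.log_lt_log_iff hcG (by positivity)).1 h2

/-- two elements of a large set with a given difference -/
theorem exists_sub {G : Type} [AddCommGroup G] [Finite G] (P : Set G)
    (hP : (Nat.card G : ℝ) < 2 * P.ncard) (g : G) : ∃ a ∈ P, ∃ b ∈ P, a - b = g := by
  have h1 : ¬ Disjoint P ((fun p => g + p) '' P) := by
    intro h
    have h2 := Set.ncard_union_eq h (Set.toFinite _) (Set.toFinite _)
    rw [Set.ncard_image_of_injective _ (add_right_injective g)] at h2
    have h3 : (P ∪ (fun p => g + p) '' P).ncard ≤ Nat.card G := by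
      refine (Set.ncard_le_ncard (Set.subset_univ _)).trans ?_
      rw [Set.ncard_univ]
    rw [h2] at h3
    have h4 : ((P.ncard + P.ncard : ℕ) : ℝ) ≤ Nat.card G := by exact_mod_cast h3
    push_cast at h4
    linarith
  rw [Set.not_disjoint_iff] at h1
  obtain ⟨a, ha, b, hb, hab⟩ := h1
  refine ⟨a, ha, b, hb, ?_⟩
  rw [← hab]
  simp

/-- two elements of a large set with a given sum -/
theorem exists_add {G : Type} [AddCommGroup G] [Finite G] (P : Set G)
    (hP : (Nat.card G : ℝ) < 2 * P.ncard) (g : G) : ∃ a ∈ P, ∃ b ∈ P, a + b = g := by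
  have h1 : ¬ Disjoint P ((fun p => g - p) '' P) := by
    intro h
    have h2 := Set.ncard_union_eq h (Set.toFinite _) (Set.toFinite _)
    rw [Set.ncard_image_of_injective _ sub_right_injective] at h2
    have h3 : (P ∪ (fun p => g - p) '' P).ncard ≤ Nat.card G := by
      refine (Set.ncard_le_ncard (Set.subset_univ _)).trans ?_
      rw [Set.ncard_univ]
    rw [h2] at h3
    have h4 : ((P.ncard + P.ncard : ℕ) : ℝ) ≤ Nat.card G := by exact_mod_cast h3
    push_cast at h4
    linarith
  rw [Set.not_disjoint_iff] at h1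
  obtain ⟨a, ha, b, hb, hab⟩ := h1
  refine ⟨a, ha, b, hb, ?_⟩
  rw [← hab]
  simp

/-- the values of the `2^j`-fold sum family -/
theorem twoPow_mem {G : Type} [AddCommGroup G] (A : Set G) (V : AddSubgroup G) (x : G)
    (B : Fam V) (hB : ∀ o, x + (B.Y o : G) ∈ A) (j : ℕ) :
    ∀ o, ∃ a : Fin (2 ^ j) → G, (∀ i, a i ∈ A) ∧
      2 ^ j • x + ((twoPow B j).Y o : G) = ∑ i, a i := by
  induction j with
  | zero =>
    intro o
    refine ⟨fun _ => x + (B.Y o : G), fun _ => hB o, ?_⟩
    simp [twoPow]
  | succ j ih =>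
    rintro ⟨o, o'⟩
    obtain ⟨a, ha, ha'⟩ := ih o
    obtain ⟨b, hb, hb'⟩ := ih o'
    have hpow : 2 ^ (j + 1) = 2 ^ j + 2 ^ j := by rw [pow_succ, mul_two]
    refine ⟨fun i => Fin.append a b (Fin.cast hpow i), fun i => ?_, ?_⟩
    · have h0 : ∀ u : Fin (2 ^ j + 2 ^ j), Fin.append a b u ∈ A := by
        intro u
        refine Fin.addCases (fun l => ?_) (fun r => ?_) u
        · rw [Fin.append_left]; exact ha l
        · rw [Fin.append_right]; exact hb r
      exact h0 _
    · have h1 : ∑ i, Fin.append a b (Fin.cast hpow i) = ∑ i, Fin.append a b i :=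
        Fintype.sum_equiv (finCongr hpow) _ _ fun i => rfl
      rw [h1, Fin.sum_univ_add]
      simp only [Fin.append_left, Fin.append_right]
      rw [← ha', ← hb']
      have h2 : (((twoPow B (j + 1)).Y (o, o') : V) : G) =
          ((twoPow B j).Y o : G) + ((twoPow B j).Y o' : G) := rfl
      rw [h2, hpow, add_nsmul]
      abel

/-- if the `2^j`-fold sum family has deficiency less than `log 2`, then `V ⊆ 2^j A - 2^j A` -/
theorem support_diff {G : Type} [AddCommGroup G] [Finite G] (A : Set G) (V : AddSubgroup G)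
    (x : G) (B : Fam V) (hB : ∀ o, x + (B.Y o : G) ∈ A) (j : ℕ)
    (h : (twoPow B j).D ⊥ < Real.log 2) :
    ∀ v ∈ V, ∃ a b : Fin (2 ^ j) → G, (∀ i, a i ∈ A) ∧ (∀ i, b i ∈ A) ∧
      v = ∑ i, a i - ∑ i, b i := by
  intro v hv
  set P : Set V := {u : V | ∃ a : Fin (2 ^ j) → G, (∀ i, a i ∈ A) ∧
    2 ^ j • x + (u : G) = ∑ i, a i} with hP
  have h1 := half_of_D (twoPow B j) P (twoPow_mem A V x B hB j) h
  obtain ⟨p, ⟨a, ha, ha'⟩, q, ⟨b, hb, hb'⟩, hpq⟩ := exists_sub P h1 ⟨v, hv⟩
  refine ⟨a, b, ha, hb, ?_⟩
  have h2 := congrArg (fun z : V => (z : G)) hpq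
  simp only [AddSubgroup.coe_sub] at h2
  rw [← h2, ← ha', ← hb']
  abel

/-- if the `2^j`-fold sum family has deficiency less than `log 2`, then a coset of `V` is in
`2^(j+1) A` -/
theorem support_coset {G : Type} [AddCommGroup G] [Finite G] (A : Set G) (V : AddSubgroup G)
    (x : G) (B : Fam V) (hB : ∀ o, x + (B.Y o : G) ∈ A) (j : ℕ)
    (h : (twoPow B j).D ⊥ < Real.log 2) :
    ∃ x' : G, ∀ v ∈ V, ∃ a b : Fin (2 ^ j) → G, (∀ i, a i ∈ A) ∧ (∀ i, b i ∈ A) ∧
      x' + v = ∑ i, a i + ∑ i, b i := by
  refine ⟨2 ^ j • x + 2 ^ j • x, fun v hv => ?_⟩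
  set P : Set V := {u : V | ∃ a : Fin (2 ^ j) → G, (∀ i, a i ∈ A) ∧
    2 ^ j • x + (u : G) = ∑ i, a i} with hP
  have h1 := half_of_D (twoPow B j) P (twoPow_mem A V x B hB j) h
  obtain ⟨p, ⟨a, ha, ha'⟩, q, ⟨b, hb, hb'⟩, hpq⟩ := exists_add P h1 ⟨v, hv⟩
  refine ⟨a, b, ha, hb, ?_⟩
  have h2 := congrArg (fun z : V => (z : G)) hpq
  simp only [AddSubgroup.coe_add] at h2
  rw [← h2, ← ha', ← hb']
  abel

end Pool.Agent.Helper25.BP
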